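import Pool.Agent.Helper26.SK.EvalBasic

/-!
# Values of the rings around poles
-/

namespace Pool.Agent.Helper26.SK

open Str Piece

namespace RingAux

theorem filter_one : ((List.finRange 8).filter fun S => card S = 1) = [1, 2, 4] := by decide

theorem filter_two : ((List.finRange 8).filter fun S => card S = 2) = [3, 5, 6] := by decide

theorem cube {ζ : ℂ} (hζ : ζ ^ 2 + ζ + 1 = 0) : ζ ^ 3 = 1 := by
  linear_combination (ζ - 1) * hζ

theorem zp_zero' (ζ : ℂ) : zp ζ 0 = 1 := by simp [zp]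

theorem zp_one' (ζ : ℂ) : zp ζ 1 = ζ := by
  have : (1 : ZMod 3).val = 1 := by decide
  simp [zp, this]

theorem zp_two' (ζ : ℂ) : zp ζ 2 = ζ ^ 2 := by
  have : (2 : ZMod 3).val = 2 := by decide
  simp [zp, this]

theorem zp_mul' {ζ : ℂ} (hζ : ζ ^ 3 = 1) (a b : ZMod 3) : zp ζ a * zp ζ b = zp ζ (a + b) := by
  unfold zp
  rw [← pow_add, ZMod.val_add]
  conv_lhs => rw [← Nat.div_add_mod (a.val + b.val) 3, pow_add, pow_mul, hζ, one_pow, one_mul]

theorem three : ∀ a b c : ZMod 3, a ≠ b ∧ b ≠ c ∧ a ≠ c →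
    (b = a + 1 ∧ c = a + 2) ∨ (b = a + 2 ∧ c = a + 1) := by
  decide

theorem zp_sum3 {ζ : ℂ} (hζ : ζ ^ 2 + ζ + 1 = 0) {a b c : ZMod 3} (h : a ≠ b ∧ b ≠ c ∧ a ≠ c) :
    zp ζ a + (zp ζ b + zp ζ c) = 0 := by
  rcases three a b c h with ⟨rfl, rfl⟩ | ⟨rfl, rfl⟩ <;>
  · rw [← zp_mul' (cube hζ), ← zp_mul' (cube hζ), zp_one', zp_two']
    linear_combination zp ζ a * hζ

end RingAux

open RingAux

theorem ev_ring_inner {ζ : ℂ} (hζ : ζ ^ 2 + ζ + 1 = 0) (c : ZMod 3) {j k : ℕ} (u : Bool) (hj : j < 3)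
    (hk : 0 < k ∧ k < 3) :
    ev ζ [CS.pole c 1, CS.pole 0 2, CS.pole 0 1] (ring j 1 u k) = 0 := by
  obtain ⟨hk0, hk3⟩ := hk
  interval_cases j <;> interval_cases k <;> cases u <;>
  · simp [ev, ring, actW, act, actAt, base, baseLoc, loc, locCap, baseCr, Piece.pos, Piece.inn, cx,
      filter_one, filter_two, zp_zero']
    refine zp_sum3 hζ ?_
    revert c
    decide

theorem ev_ring_outer {ζ : ℂ} (hζ : ζ ^ 2 + ζ + 1 = 0) (c : ZMod 3) {k : ℕ} (u : Bool)
    (hk : 0 < k ∧ k < 3) :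
    ev ζ [CS.pole c 1, CS.pole 0 2, CS.pole 0 1] (ring 0 3 u k) = 0 := by
  obtain ⟨hk0, hk3⟩ := hk
  interval_cases k <;> cases u <;>
  · simp [ev, ring, actW, act, actAt, base, baseLoc, loc, locCap, baseCr, Piece.pos, Piece.inn, cx,
      filter_one, filter_two, zp_zero', List.range_succ, zp_mul' (cube hζ)]
    refine zp_sum3 hζ ?_
    revert c
    decide

/-- here the two poles act by scalars; the exponent of ζ may be c or -c: please adapt the sign -/
theorem ev_ring_two {ζ : ℂ} (hζ : ζ ^ 2 + ζ + 1 = 0) (c : ZMod 3) :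
    ev ζ [CS.pole c 1, CS.pole 0 2, CS.pole 0 1] (ring 0 2 false 1) = 3 * zp ζ (-c) := by
  simp [ev, ring, actW, act, actAt, base, baseLoc, loc, locCap, baseCr, Piece.pos, Piece.inn, cx,
    filter_one, zp_zero', List.range_succ, zp_mul' (cube hζ)]
  have h1 : ∀ S : Fin 8, card S = 1 → ∀ c : ZMod 3, -chi 0 2 S + -chi c 1 S = -c := by decide
  rw [h1 1 (by decide), h1 2 (by decide), h1 4 (by decide)]
  ring

end Pool.Agent.Helper26.SK
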