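import Pool.Agent.Helper26.SK.EvalBasic

/-!
# Isotopy invariance of the evaluation: the four moves with vertices
-/

namespace Pool.Agent.Helper26.SK

open Str Piece

/-- The moves with vertices. -/
inductive Vert : List Piece → List Piece → Prop
  | slideMerge (i k l : ℕ) (o : Bool) :
      Vert (merge i k l :: (if k + l < 3 then [cr i o] else []))
        [cr (i + 1) o, cr i o, merge (i + 1) k l]
  | slideSplit (i k l : ℕ) (o : Bool) :
      Vert ((if k + l < 3 then [cr i o] else []) ++ [split (i + 1) k l])
        [split i k l, cr (i + 1) o, cr i o]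
  | turnMerge (i k l : ℕ) :
      Vert ([cup (i + vis 3 (k + l)) true k, cup (i + vis 3 (k + l) + 1) true l,
          merge (i + vis 3 (k + l)) k l] ++ (if k + l < 3 then [cap i] else []))
        ([cup i false l, cup (i + 1) false k, merge (i + 2) k l] ++
          (if k + l < 3 then [cap (i + 2)] else []))
  | turnSplit (i k l : ℕ) :
      Vert ((if k + l < 3 then [cup (i + 2) true (k + l)] else []) ++
          [split (i + 2) k l, cap (i + 1), cap i])
        ((if k + l < 3 then [cup i false (k + l)] else []) ++
          [split (i + vis 3 (k + l)) k l, cap (i + vis 3 (k + l) + 1), cap (i + vis 3 (k + l))])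

namespace VertAux

variable {ζ : ℂ}

/-! ### Lengths -/

theorem step_length {p : Piece} {s t : List Str} (h : Step 3 p s t) :
    p.pos + p.inn 3 ≤ s.length ∧ t.length + p.inn 3 = s.length + p.out 3 := by
  cases h with
  | cup A B u k h => simp [Piece.pos, Piece.inn, Piece.out]; omega
  | cap A B u k => simp [Piece.pos, Piece.inn, Piece.out]; omega
  | cr A B x y o h => simp [Piece.pos, Piece.inn, Piece.out]
  | merge A B k l h => simp [Piece.pos, Piece.inn, Piece.out, length_lab]; omega
  | split A B k l h => simp [Piece.pos, Piece.inn, Piece.out, length_lab]; omega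

theorem step_merge {i k l : ℕ} {s t : List Str} (h : Step 3 (merge i k l) s t) :
    0 < k ∧ 0 < l ∧ k + l ≤ 3 := by
  cases h with
  | merge A B k l h => exact h

theorem step_split {i k l : ℕ} {s t : List Str} (h : Step 3 (split i k l) s t) :
    0 < k ∧ 0 < l ∧ k + l ≤ 3 := by
  cases h with
  | split A B k l h => exact h

theorem exists_append {i : ℕ} {cs : List CS} (h : i ≤ cs.length) :
    ∃ A cs', cs = A ++ cs' ∧ A.length = i :=
  ⟨cs.take i, cs.drop i, (List.take_append_drop _ _).symm, List.length_take_of_le h⟩

theorem cases_kl {k l : ℕ} (h : 0 < k ∧ 0 < l ∧ k + l ≤ 3) :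
    (k = 1 ∧ l = 1) ∨ (k = 1 ∧ l = 2) ∨ (k = 2 ∧ l = 1) := by omega

/-- Reduction to position zero. -/
theorem reduce {D E D0 E0 : List Piece} {i : ℕ} (hD : D = D0.map (shift i))
    (hE : E = E0.map (shift i)) {cs : List CS} {n : ℕ} (hn : i + n ≤ cs.length)
    (h : ∀ (cs' : List CS), n ≤ cs'.length → ∀ K : Cont, actW ζ D0 cs' K = actW ζ E0 cs' K)
    (k : Cont) : actW ζ D cs k = actW ζ E cs k := by
  obtain ⟨A, cs', rfl, hA⟩ := exists_append (show i ≤ cs.length by omega)
  subst hA
  rw [hD, hE, actW_shift, actW_shift]
  apply h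
  rw [List.length_append] at hn
  omega

theorem exists_cons {n : ℕ} {cs : List CS} (h : n + 1 ≤ cs.length) :
    ∃ x cs', cs = x :: cs' ∧ n ≤ cs'.length := by
  match cs, h with
  | x :: cs', h => exact ⟨x, cs', rfl, by simpa using h⟩

/-! ### Powers of `ζ` -/

theorem zp_mul' (hζ : ζ ^ 3 = 1) (a b : ZMod 3) : zp ζ a * zp ζ b = zp ζ (a + b) := by
  unfold zp
  rw [← pow_add, ZMod.val_add]
  conv_lhs => rw [← Nat.div_add_mod (a.val + b.val) 3, pow_add, pow_mul, hζ, one_pow, one_mul]

theorem zp_zero' : zp ζ 0 = 1 := by simp [zp]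

theorem card_or : ∀ S T : Fin 8, S &&& T = 0 →
    (card (S ||| T) : ZMod 3) = (card S : ZMod 3) + (card T : ZMod 3) := by decide

theorem sig_or : ∀ S T : Fin 8, S &&& T = 0 → sig (S ||| T) = sig S + sig T := by decide

theorem cx_or (o : Bool) (S T : Fin 8) (h : S &&& T = 0) (z : CS) :
    cx o (.web true T) z + cx o (.web true S) z = cx o (.web true (S ||| T)) z := by
  have h1 := card_or S T h
  have h2 := sig_or S T h
  cases z with
  | pole c e =>
    cases o <;> simp only [cx, chi, h1, h2] <;> ring_nf <;> simp <;> ring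
  | web u U =>
    cases o <;> cases u <;> simp only [cx, h1] <;> simp <;> ring

theorem cx_full (o : Bool) (S T : Fin 8) (h : S &&& T = 0) (h3 : card S + card T = 3) (z : CS) :
    cx o (.web true T) z + cx o (.web true S) z = 0 := by
  have h1 : (card S : ZMod 3) + (card T : ZMod 3) = 0 := by
    have : ((card S + card T : ℕ) : ZMod 3) = 0 := by rw [h3]; decide
    push_cast at this
    exact this
  have h2 : sig S + sig T = 0 := by
    revert S T
    decide
  cases z with
  | pole c e =>
    cases o
    · simp only [cx, chi]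
      simp only [Bool.false_eq_true, if_false, if_true]
      linear_combination c * h1 + e * h2
    · simp [cx]
  | web u U =>
    cases o <;> cases u <;> simp only [cx] <;> simp <;>
      first
        | linear_combination ((card U : ZMod 3)) * h1
        | linear_combination (-(card U : ZMod 3)) * h1

/-! ### Slides -/

theorem act_merge0 (k l : ℕ) (x y : CS) (B : List CS) (K : Cont) :
    act ζ (merge 0 k l) (x :: y :: B) K =
      ((locMerge k l [x, y]).map fun w => (w.1 : ℂ) * K (w.2 ++ B)).sum := by
  simp [act, actAt, base, baseLoc, loc, Piece.pos, Piece.inn]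

theorem act_merge1 (k l : ℕ) (z x y : CS) (B : List CS) (K : Cont) :
    act ζ (merge 1 k l) (z :: x :: y :: B) K =
      ((locMerge k l [x, y]).map fun w => (w.1 : ℂ) * K (z :: (w.2 ++ B))).sum := by
  simp [act, actAt, base, baseLoc, loc, Piece.pos, Piece.inn]

theorem act_cr0 (o : Bool) (x y : CS) (B : List CS) (K : Cont) :
    act ζ (cr 0 o) (x :: y :: B) K = zp ζ (cx o x y) * K (y :: x :: B) := rfl

theorem act_cr1 (o : Bool) (z x y : CS) (B : List CS) (K : Cont) :
    act ζ (cr 1 o) (z :: x :: y :: B) K = zp ζ (cx o x y) * K (z :: y :: x :: B) := rfl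

theorem slideMerge_loc (hζ : ζ ^ 3 = 1) {k l : ℕ} (h : 0 < k ∧ 0 < l ∧ k + l ≤ 3) (o : Bool)
    (cs : List CS) (hcs : 3 ≤ cs.length) (K : Cont) :
    actW ζ (merge 0 k l :: (if k + l < 3 then [cr 0 o] else [])) cs K =
      actW ζ [cr 1 o, cr 0 o, merge 1 k l] cs K := by
  obtain ⟨x, cs1, rfl, hcs1⟩ := exists_cons hcs
  obtain ⟨y, cs2, rfl, hcs2⟩ := exists_cons hcs1
  obtain ⟨z, B, rfl, -⟩ := exists_cons hcs2
  have hR : actW ζ [cr 1 o, cr 0 o, merge 1 k l] (x :: y :: z :: B) K =
      zp ζ (cx o y z) * (zp ζ (cx o x z) *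
        ((locMerge k l [x, y]).map fun w => (w.1 : ℂ) * K (z :: (w.2 ++ B))).sum) := by
    simp only [actW, act_cr1, act_cr0, act_merge1]
  have hL : actW ζ (merge 0 k l :: (if k + l < 3 then [cr 0 o] else [])) (x :: y :: z :: B) K =
      ((locMerge k l [x, y]).map fun w => (w.1 : ℂ) *
        actW ζ (if k + l < 3 then [cr 0 o] else []) (w.2 ++ z :: B) K).sum := by
    simp only [actW, act_merge0]
  rw [hR, hL]
  have hz : ∀ (a b : ℂ) (X : List (ℤ × List CS)), X = [] →
      (X.map fun w => (w.1 : ℂ) *
        actW ζ (if k + l < 3 then [cr 0 o] else []) (w.2 ++ z :: B) K).sum =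
      a * (b * (X.map fun w => (w.1 : ℂ) * K (z :: (w.2 ++ B))).sum) := by
    rintro a b X rfl
    simp
  match x, y with
  | .web true S, .web true T =>
    by_cases hc : card S = k ∧ card T = l ∧ S &&& T = 0
    · obtain ⟨hS, hT, hST⟩ := hc
      by_cases hkl : k + l < 3
      · have hv : vis 3 (k + l) = 1 := by simp [vis, hkl]; omega
        have e1 : locMerge k l [.web true S, .web true T] =
            [((-1) ^ ell S T, [CS.web true (S ||| T)])] := by
          simp only [locMerge, hS, hT, hST, hv, and_self, if_true]
        rw [e1, if_pos hkl]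
        simp only [List.map_cons, List.map_nil, List.sum_cons, List.sum_nil, add_zero, actW,
          List.cons_append, List.nil_append, act_cr0]
        rw [← cx_or o S T hST z, ← zp_mul' hζ]
        ring
      · have hv : vis 3 (k + l) = 0 := by simp [vis]; omega
        have e1 : locMerge k l [.web true S, .web true T] = [((-1) ^ ell S T, [])] := by
          simp [locMerge, hS, hT, hST, hv]
        rw [e1, if_neg hkl]
        simp only [List.map_cons, List.map_nil, List.sum_cons, List.sum_nil, add_zero, actW,
          List.nil_append]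
        have h1 := zp_mul' hζ (cx o (.web true T) z) (cx o (.web true S) z)
        rw [cx_full o S T hST (by omega) z, zp_zero'] at h1
        linear_combination (-((((-1) ^ ell S T : ℤ) : ℂ) * K (z :: B))) * h1
    · apply hz
      simp only [locMerge, if_neg hc]
  | .web false _, _ => exact hz _ _ _ rfl
  | .pole _ _, _ => exact hz _ _ _ rfl
  | .web true _, .web false _ => exact hz _ _ _ rfl
  | .web true _, .pole _ _ => exact hz _ _ _ rfl

theorem act_split0 {k l : ℕ} (hv : vis 3 (k + l) = 1) (x : CS) (B : List CS) (K : Cont) :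
    act ζ (split 0 k l) (x :: B) K =
      ((locSplit k l [x]).map fun w => (w.1 : ℂ) * K (w.2 ++ B)).sum := by
  simp [act, actAt, base, baseLoc, loc, Piece.pos, Piece.inn, hv]

theorem act_split1 {k l : ℕ} (hv : vis 3 (k + l) = 1) (z x : CS) (B : List CS) (K : Cont) :
    act ζ (split 1 k l) (z :: x :: B) K =
      ((locSplit k l [x]).map fun w => (w.1 : ℂ) * K (z :: (w.2 ++ B))).sum := by
  simp [act, actAt, base, baseLoc, loc, Piece.pos, Piece.inn, hv]

theorem act_split0' {k l : ℕ} (hv : vis 3 (k + l) = 0) (B : List CS) (K : Cont) :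
    act ζ (split 0 k l) B K =
      ((locSplit k l []).map fun w => (w.1 : ℂ) * K (w.2 ++ B)).sum := by
  simp [act, actAt, base, baseLoc, loc, Piece.pos, Piece.inn, hv]

theorem act_split1' {k l : ℕ} (hv : vis 3 (k + l) = 0) (z : CS) (B : List CS) (K : Cont) :
    act ζ (split 1 k l) (z :: B) K =
      ((locSplit k l []).map fun w => (w.1 : ℂ) * K (z :: (w.2 ++ B))).sum := by
  simp [act, actAt, base, baseLoc, loc, Piece.pos, Piece.inn, hv]

theorem split_facts : ∀ S U : Fin 8, S &&& U = S → S &&& (U - S) = 0 ∧ S ||| (U - S) = U := by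
  decide

theorem slideSplit_loc (hζ : ζ ^ 3 = 1) {k l : ℕ} (h : 0 < k ∧ 0 < l ∧ k + l ≤ 3) (o : Bool)
    (cs : List CS) (hcs : vis 3 (k + l) + 1 ≤ cs.length) (K : Cont) :
    actW ζ ((if k + l < 3 then [cr 0 o] else []) ++ [split 1 k l]) cs K =
      actW ζ [split 0 k l, cr 1 o, cr 0 o] cs K := by
  by_cases hkl : k + l < 3
  · have hv : vis 3 (k + l) = 1 := by simp [vis, hkl]; omega
    rw [hv] at hcs
    obtain ⟨x, cs1, rfl, hcs1⟩ := exists_cons hcs
    obtain ⟨y, B, rfl, -⟩ := exists_cons hcs1
    rw [if_pos hkl]
    simp only [List.cons_append, List.nil_append, actW, act_cr0, act_split0 hv, act_split1 hv]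
    match x with
    | .web true U =>
      by_cases hU : card U = k + l
      · simp only [locSplit, if_pos hU, List.map_map, Function.comp_def]
        rw [← List.sum_map_mul_left]
        congr 1
        apply List.map_congr_left
        intro S hS
        simp only [List.mem_filter, decide_eq_true_eq] at hS
        obtain ⟨h1, h2⟩ := split_facts S U hS.2.2
        simp only [List.cons_append, List.nil_append, act_cr1, act_cr0]
        have h3 := cx_or o S (U - S) h1 y
        rw [h2] at h3
        rw [← h3, ← zp_mul' hζ]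
        ring
      · simp [locSplit, if_neg hU]
    | .web false _ => simp [locSplit]
    | .pole _ _ => simp [locSplit]
  · have hv : vis 3 (k + l) = 0 := by simp [vis]; omega
    rw [hv] at hcs
    obtain ⟨y, B, rfl, -⟩ := exists_cons hcs
    rw [if_neg hkl]
    simp only [List.nil_append, actW, act_split0' hv, act_split1' hv]
    simp only [locSplit, if_pos (show k + l = 3 by omega), List.map_map, Function.comp_def]
    congr 1
    apply List.map_congr_left
    intro S hS
    simp only [List.mem_filter, decide_eq_true_eq] at hS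
    simp only [List.cons_append, List.nil_append, act_cr1, act_cr0]
    have hf : ∀ S : Fin 8, S &&& (7 - S) = 0 ∧ card S + card (7 - S) = 3 := by decide
    obtain ⟨h1, h2⟩ := hf S
    have h3 := zp_mul' hζ (cx o (.web true (7 - S)) y) (cx o (.web true S) y)
    rw [cx_full o S (7 - S) h1 h2 y, zp_zero'] at h3
    linear_combination (-((((-1) ^ (k * l + ell (7 - S) S) : ℤ) : ℂ) *
      K (y :: CS.web true S :: CS.web true (7 - S) :: B))) * h3

/-! ### Formal sums -/

/-- A piece (not a crossing) applied to a list of strands which is long enough. -/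
def actL (p : Piece) (s : List CS) : List (ℤ × List CS) :=
  (loc p ((s.drop p.pos).take (p.inn 3))).map fun x =>
    (x.1, s.take p.pos ++ x.2 ++ s.drop (p.pos + p.inn 3))

/-- Being a crossing. -/
def isCr : Piece → Bool
  | cr _ _ => true
  | _ => false

/-- Applying `f` to all terms of a formal sum. -/
def bindL (f : List CS → Option (List (ℤ × List CS))) :
    List (ℤ × List CS) → Option (List (ℤ × List CS))
  | [] => some []
  | x :: X =>
    match f x.2, bindL f X with
    | some L, some M => some (L.map (fun y => (x.1 * y.1, y.2)) ++ M)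
    | _, _ => none

/-- A word without crossings applied to a list of strands; `none` if it is too short. -/
def runL : List Piece → List CS → Option (List (ℤ × List CS))
  | [], s => some [(1, s)]
  | p :: D, s =>
    if isCr p = false ∧ p.pos + p.inn 3 ≤ s.length then bindL (runL D) (actL p s) else none

theorem act_eq_actL {p : Piece} (hp : isCr p = false) {s : List CS}
    (hs : p.pos + p.inn 3 ≤ s.length) (B : List CS) (K : Cont) :
    act ζ p (s ++ B) K = ((actL p s).map fun x => (x.1 : ℂ) * K (x.2 ++ B)).sum := by
  obtain ⟨A, s', rfl, hA⟩ := exists_append (show p.pos ≤ s.length by omega)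
  have h1 : act ζ p (A ++ s' ++ B) K = base ζ p (s' ++ B) (fun t => K (A ++ t)) := by
    unfold act
    rw [← hA]
    clear hs hA
    induction A generalizing K with
    | nil => rfl
    | cons c A ih =>
      simp only [List.cons_append, List.length_cons, actAt]
      exact ih _
  have h2 : base ζ p (s' ++ B) (fun t => K (A ++ t)) =
      baseLoc p (s' ++ B) (fun t => K (A ++ t)) := by
    cases p with
    | cr i o => simp [isCr] at hp
    | _ => rfl
  have hlen : p.inn 3 ≤ s'.length := by
    rw [List.length_append] at hs; omega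
  rw [h1, h2, baseLoc, if_pos (by rw [List.length_append]; omega), actL, List.map_map]
  have e1 : (A ++ s').drop p.pos = s' := by rw [← hA, List.drop_left]
  have e2 : (A ++ s').take p.pos = A := by rw [← hA, List.take_left]
  have e3 : (A ++ s').drop (p.pos + p.inn 3) = s'.drop (p.inn 3) := by
    rw [← hA, List.drop_append, List.drop_eq_nil_of_le (by omega)]
    simp
  rw [e1, e2, e3, List.take_append_of_le_length hlen, List.drop_append_of_le_length hlen]
  congr 1
  apply List.map_congr_left
  intro x _
  simp [List.append_assoc]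

theorem actW_eq_runL {D : List Piece} {s : List CS} {Z : List (ℤ × List CS)}
    (h : runL D s = some Z) (B : List CS) (K : Cont) :
    actW ζ D (s ++ B) K = (Z.map fun x => (x.1 : ℂ) * K (x.2 ++ B)).sum := by
  induction D generalizing s Z with
  | nil =>
    simp only [runL, Option.some.injEq] at h
    subst h
    simp [actW]
  | cons p D ih =>
    rw [runL] at h
    split_ifs at h with hp
    rw [actW, act_eq_actL hp.1 hp.2]
    generalize actL p s = Y at h
    induction Y generalizing Z with
    | nil =>
      simp only [bindL, Option.some.injEq] at h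
      subst h
      simp
    | cons x Y ih' =>
      rw [bindL] at h
      split at h
      · rename_i L M hL hM
        simp only [Option.some.injEq] at h
        subst h
        simp only [List.map_cons, List.sum_cons, List.map_append, List.sum_append]
        rw [ih' hM, ih hL, List.map_map, ← List.sum_map_mul_left]
        congr 2
        apply List.map_congr_left
        intro y _
        simp only [Function.comp_apply]
        push_cast
        ring
      · simp at h

/-- Comparison of two words by computation. -/
def same (D E : List Piece) (s : List CS) : Bool :=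
  match runL D s, runL E s with
  | some Z, some W => Z.isPerm W
  | _, _ => false

theorem actW_of_same {D E : List Piece} {s : List CS} (h : same D E s = true) (B : List CS)
    (K : Cont) : actW ζ D (s ++ B) K = actW ζ E (s ++ B) K := by
  unfold same at h
  split at h
  · rename_i Z W hZ hW
    rw [actW_eq_runL hZ, actW_eq_runL hW]
    exact List.Perm.sum_eq ((List.isPerm_iff.mp h).map _)
  · simp at h

/-- All coloured strands. -/
def allCS : List CS :=
  (([0, 1, 2] : List (ZMod 3)).flatMap fun c => ([0, 1, 2] : List (ZMod 3)).map fun e => CS.pole c e) ++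
    ((List.finRange 8).flatMap fun S => [CS.web true S, CS.web false S])

theorem mem_allCS (x : CS) : x ∈ allCS := by
  unfold allCS
  rw [List.mem_append]
  cases x with
  | pole c e =>
    left
    have h3 : ∀ c : ZMod 3, c ∈ ([0, 1, 2] : List (ZMod 3)) := by decide
    rw [List.mem_flatMap]
    exact ⟨c, h3 c, List.mem_map.mpr ⟨e, h3 e, rfl⟩⟩
  | web u S =>
    right
    rw [List.mem_flatMap]
    refine ⟨S, List.mem_finRange _, ?_⟩
    cases u <;> simp

theorem turnMerge_check : ∀ x ∈ allCS,
    same [cup 1 true 1, cup 2 true 1, merge 1 1 1, cap 0]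
      [cup 0 false 1, cup 1 false 1, merge 2 1 1, cap 2] [x] = true := by
  decide +kernel

theorem turnMerge_check' : same [cup 0 true 1, cup 1 true 2, merge 0 1 2]
      [cup 0 false 2, cup 1 false 1, merge 2 1 2] [] = true ∧
    same [cup 0 true 2, cup 1 true 1, merge 0 2 1]
      [cup 0 false 1, cup 1 false 2, merge 2 2 1] [] = true := by
  decide +kernel

theorem turnSplit_check : ∀ x ∈ allCS, ∀ y ∈ allCS,
    same [cup 2 true 2, split 2 1 1, cap 1, cap 0]
      [cup 0 false 2, split 1 1 1, cap 2, cap 1] [x, y] = true := by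
  decide +kernel

theorem turnSplit_check' : ∀ x ∈ allCS, ∀ y ∈ allCS,
    same [split 2 1 2, cap 1, cap 0] [split 0 1 2, cap 1, cap 0] [x, y] = true ∧
    same [split 2 2 1, cap 1, cap 0] [split 0 2 1, cap 1, cap 0] [x, y] = true := by
  decide +kernel

theorem turnMerge_loc {k l : ℕ} (h : 0 < k ∧ 0 < l ∧ k + l ≤ 3) (cs : List CS)
    (hcs : vis 3 (k + l) ≤ cs.length) (K : Cont) :
    actW ζ ([cup (vis 3 (k + l)) true k, cup (vis 3 (k + l) + 1) true l,
        merge (vis 3 (k + l)) k l] ++ (if k + l < 3 then [cap 0] else [])) cs K =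
      actW ζ ([cup 0 false l, cup 1 false k, merge 2 k l] ++
        (if k + l < 3 then [cap 2] else [])) cs K := by
  rcases cases_kl h with ⟨rfl, rfl⟩ | ⟨rfl, rfl⟩ | ⟨rfl, rfl⟩
  · obtain ⟨x, B, rfl, -⟩ := exists_cons (n := 0) (show 0 + 1 ≤ cs.length from hcs)
    exact actW_of_same (turnMerge_check x (mem_allCS x)) B K
  · exact actW_of_same turnMerge_check'.1 cs K
  · exact actW_of_same turnMerge_check'.2 cs K

theorem turnSplit_loc {k l : ℕ} (h : 0 < k ∧ 0 < l ∧ k + l ≤ 3) (cs : List CS)
    (hcs : 2 ≤ cs.length) (K : Cont) :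
    actW ζ ((if k + l < 3 then [cup 2 true (k + l)] else []) ++
        [split 2 k l, cap 1, cap 0]) cs K =
      actW ζ ((if k + l < 3 then [cup 0 false (k + l)] else []) ++
        [split (vis 3 (k + l)) k l, cap (vis 3 (k + l) + 1), cap (vis 3 (k + l))]) cs K := by
  obtain ⟨x, cs1, rfl, hcs1⟩ := exists_cons hcs
  obtain ⟨y, B, rfl, -⟩ := exists_cons hcs1
  rcases cases_kl h with ⟨rfl, rfl⟩ | ⟨rfl, rfl⟩ | ⟨rfl, rfl⟩
  · exact actW_of_same (turnSplit_check x (mem_allCS x) y (mem_allCS y)) B K
  · exact actW_of_same (turnSplit_check' x (mem_allCS x) y (mem_allCS y)).1 B K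
  · exact actW_of_same (turnSplit_check' x (mem_allCS x) y (mem_allCS y)).2 B K

end VertAux

open VertAux

theorem actW_vert {ζ : ℂ} (hζ : ζ ^ 3 = 1) {D E : List Piece} (h : Vert D E) {s t : List Str}
    (hD : Run 3 D s t) (hE : Run 3 E s t) (cs : List CS) (hcs : cs.map ty = s) (k : Cont) :
    actW ζ D cs k = actW ζ E cs k := by
  have hlen : s.length = cs.length := by rw [← hcs, List.length_map]
  cases h with
  | slideMerge i m l o =>
    have hml : 0 < m ∧ 0 < l ∧ m + l ≤ 3 := by
      obtain ⟨r, hr, -⟩ := hD
      exact step_merge hr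
    have hn : i + 3 ≤ cs.length := by
      obtain ⟨r, hr, -⟩ := hE
      have := (step_length hr).1
      simp only [Piece.pos, Piece.inn] at this
      omega
    refine reduce (i := i) (D0 := merge 0 m l :: (if m + l < 3 then [cr 0 o] else []))
      (E0 := [cr 1 o, cr 0 o, merge 1 m l]) ?_ ?_ hn (slideMerge_loc hζ hml o) k
    · split_ifs <;> simp [Piece.shift]
    · simp [Piece.shift, Nat.add_comm]
  | slideSplit i m l o =>
    have hml : 0 < m ∧ 0 < l ∧ m + l ≤ 3 := by
      obtain ⟨r, hr, -⟩ := hE
      exact step_split hr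
    have hn : i + (vis 3 (m + l) + 1) ≤ cs.length := by
      obtain ⟨r, hr, r', hr', -⟩ := hE
      have h1 := step_length hr
      have h2 := step_length hr'
      simp only [Piece.pos, Piece.inn, Piece.out] at h1 h2
      omega
    refine reduce (i := i) (D0 := (if m + l < 3 then [cr 0 o] else []) ++ [split 1 m l])
      (E0 := [split 0 m l, cr 1 o, cr 0 o]) ?_ ?_ hn (slideSplit_loc hζ hml o) k
    · split_ifs <;> simp [Piece.shift, Nat.add_comm]
    · simp [Piece.shift, Nat.add_comm]
  | turnMerge i m l =>
    have hml : 0 < m ∧ 0 < l ∧ m + l ≤ 3 := by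
      obtain ⟨r, hr, r', hr', r'', hr'', -⟩ := hE
      exact step_merge hr''
    have hn : i + vis 3 (m + l) ≤ cs.length := by
      obtain ⟨r, hr, -⟩ := hD
      have h1 := step_length hr
      simp only [Piece.pos, Piece.inn, Piece.out] at h1
      omega
    refine reduce (i := i) (D0 := [cup (vis 3 (m + l)) true m, cup (vis 3 (m + l) + 1) true l,
        merge (vis 3 (m + l)) m l] ++ (if m + l < 3 then [cap 0] else []))
      (E0 := [cup 0 false l, cup 1 false m, merge 2 m l] ++
        (if m + l < 3 then [cap 2] else [])) ?_ ?_ hn (turnMerge_loc hml) k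
    · split_ifs <;> simp [Piece.shift, Nat.add_comm, Nat.add_left_comm]
    · split_ifs <;> simp [Piece.shift, Nat.add_comm]
  | turnSplit i m l =>
    have hml : 0 < m ∧ 0 < l ∧ m + l ≤ 3 := by
      split_ifs at hE with hml
      · obtain ⟨r, hr, r', hr', -⟩ := hE
        exact step_split hr'
      · obtain ⟨r, hr, -⟩ := hE
        exact step_split hr
    have hn : i + 2 ≤ cs.length := by
      split_ifs at hD with hml
      · obtain ⟨r, hr, -⟩ := hD
        have h1 := step_length hr
        simp only [Piece.pos, Piece.inn, Piece.out] at h1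
        omega
      · obtain ⟨r, hr, -⟩ := hD
        have h1 := step_length hr
        simp only [Piece.pos, Piece.inn, Piece.out] at h1
        omega
    refine reduce (i := i) (D0 := (if m + l < 3 then [cup 2 true (m + l)] else []) ++
        [split 2 m l, cap 1, cap 0])
      (E0 := (if m + l < 3 then [cup 0 false (m + l)] else []) ++
        [split (vis 3 (m + l)) m l, cap (vis 3 (m + l) + 1), cap (vis 3 (m + l))]) ?_ ?_ hn
      (turnSplit_loc hml) k
    · split_ifs <;> simp [Piece.shift, Nat.add_comm]
    · split_ifs <;> simp [Piece.shift, Nat.add_comm, Nat.add_left_comm]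

end Pool.Agent.Helper26.SK
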